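import Mathlib
import Pool.Agent.R398.AS.Local

/-! Families of cuspidal representations of `GL(2)` over a number field: the partial Rankin-Selberg `L`-functions of
their lifts `A² π` and `A⁴ π`. -/

set_option autoImplicit false

namespace Pool.Agent.R370.RF

open NumberField IsDedekindDomain

variable {K : Type} [Field K] [NumberField K]

/-- the finite places of `K` outside `S` -/
abbrev Places (S : Finset (HeightOneSpectrum (𝓞 K))) := {v : HeightOneSpectrum (𝓞 K) // v ∉ S}

/-- the norm of a finite place -/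
noncomputable def Nm (v : HeightOneSpectrum (𝓞 K)) : ℕ := Ideal.absNorm v.asIdeal

/-- the trivial representation (`none`), and `A² π_i` (`some (i, 0)`) and `A⁴ π_i` (`some (i, 1)`), `i < m` -/
abbrev Lift (m : ℕ) := Option (Fin m × Fin 2)

/-- `1 + ∑_{1 ≤ j ≤ a} (ρ^{jk} + ρ^{-jk})`, `ρ = α_0 / α_1`: the trace of the `k`-th power of the Satake parameter of
`A^{2a} π = Sym^{2a} π ⊗ ω_π^{-a}` at a place at which `π` has the Satake parameters `α_0, α_1` -/
noncomputable def tr (a : ℕ) (α : Fin 2 → ℂ) (k : ℕ) : ℂ :=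
  1 + ∑ j ∈ Finset.Icc 1 a, ((α 0 / α 1) ^ (j * k) + (α 1 / α 0) ^ (j * k))

/-- the trace of the `k`-th power of the Satake parameter at `v` of the lift `x` -/
noncomputable def liftTr {S : Finset (HeightOneSpectrum (𝓞 K))} {m : ℕ} (α : Fin m → Places S → Fin 2 → ℂ) :
    Lift m → Places S → ℕ → ℂ
  | none, _, _ => 1
  | some (i, a), v, k => tr (a + 1) (α i v) k

/-- the logarithm of the partial Rankin-Selberg `L`-function `L^S(s, x × y)` of two lifts:
`∑_{v ∉ S} ∑_{k ≥ 1} (trace)(trace) / k · (N v)^{-ks}` -/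
noncomputable def logRS {S : Finset (HeightOneSpectrum (𝓞 K))} {m : ℕ} (α : Fin m → Places S → Fin 2 → ℂ)
    (x y : Lift m) (s : ℂ) : ℂ :=
  ∑' u : Places S × ℕ, liftTr α x u.1 (u.2 + 1) * liftTr α y u.1 (u.2 + 1) / ((u.2 : ℂ) + 1) *
    (((Nm u.1.1 : ℕ) : ℂ) ^ (-s)) ^ (u.2 + 1)

/-- the parameters of a unitary representation -/
def Unitary (a : Fin 2 → ℂ) : Prop :=
  (∀ i, a i ≠ 0) ∧ ∃ τ : Equiv.Perm (Fin 2), ∀ i, a (τ i) = ((starRingEnd ℂ) (a i))⁻¹

/-- What is used of the cuspidal representations `π_i` of `GL(2)` over `K`. -/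
structure CuspidalFamily {S : Finset (HeightOneSpectrum (𝓞 K))} {m : ℕ} (α : Fin m → Places S → Fin 2 → ℂ) :
    Prop where
  /-- the local components are unitary -/
  unitary : ∀ i v, Unitary (α i v)
  /-- the Rankin-Selberg series converge absolutely for `Re s > 1` -/
  summable : ∀ x : Lift m, ∀ σ : ℝ, 1 < σ → Summable fun u : Places S × ℕ =>
    ‖liftTr α x u.1 (u.2 + 1)‖ ^ 2 / ((u.2 : ℝ) + 1) * ((Nm u.1.1 : ℝ) ^ (-σ)) ^ (u.2 + 1)
  /-- the partial Rankin-Selberg `L`-functions are meromorphic at `s = 1`; they have a simple pole there if the two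
  lifts are equal, and otherwise neither a zero nor a pole -/
  rankinSelberg : ∀ x y : Lift m, (x ≠ none ∨ y ≠ none) → ∃ F : ℂ → ℂ,
    MeromorphicAt F 1 ∧ meromorphicOrderAt F 1 = (if x = y then -1 else 0) ∧
      ∀ s : ℂ, 1 < s.re → F s = Complex.exp (logRS α x y s)

end Pool.Agent.R370.RF
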