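import Mathlib
import Pool.Agent.R370.RF.Defs
import Pool.Agent.H921R2.TatePole.Main
import Pool.Agent.H921R2.TatePole.Dedekind

set_option autoImplicit false

namespace Pool.Agent.R370.RF

open NumberField IsDedekindDomain Filter Topology
open Pool.Agent.H921R2.TatePole (Lam Lam_tendsto)

variable {K : Type} [Field K] [NumberField K] {S : Finset (HeightOneSpectrum (𝓞 K))} {m : ℕ}
  {α : Fin m → Places S → Fin 2 → ℂ}

theorem two_le_Nm (v : HeightOneSpectrum (𝓞 K)) : 2 ≤ Nm v :=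
  Pool.Agent.H921R2.TatePole.two_le_nm v

theorem Nm_pos (v : HeightOneSpectrum (𝓞 K)) : (0 : ℝ) < (Nm v : ℝ) := by
  have := two_le_Nm v
  exact_mod_cast (by omega : 0 < Nm v)

theorem summable_Nm {x : ℝ} (hx : 1 < x) : Summable fun v : HeightOneSpectrum (𝓞 K) => (Nm v : ℝ) ^ (-x) :=
  Pool.Agent.H921R2.TatePole.nm_summable hx

theorem summable_Nm' {x : ℝ} (hx : 1 < x) : Summable fun v : Places S => (Nm v.1 : ℝ) ^ (-x) :=
  (summable_Nm hx).comp_injective Subtype.val_injective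

/-- the weights -/
noncomputable def WW (σ : ℝ) (u : Places S × ℕ) : ℝ := ((Nm u.1.1 : ℝ) ^ (-σ)) ^ (u.2 + 1) / ((u.2 : ℝ) + 1)

theorem WW_nonneg (σ : ℝ) (u : Places S × ℕ) : 0 ≤ WW σ u := by
  unfold WW
  have := (Nm_pos u.1.1).le
  positivity

/-- real traces -/
noncomputable def rl (α : Fin m → Places S → Fin 2 → ℂ) (x : Lift m) (u : Places S × ℕ) : ℝ :=
  (liftTr α x u.1 (u.2 + 1)).re

theorem liftTr_eq (h : CuspidalFamily α) (x : Lift m) (u : Places S × ℕ) :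
    liftTr α x u.1 (u.2 + 1) = (rl α x u : ℂ) := by
  apply Complex.ext
  · rw [Complex.ofReal_re, rl]
  · rw [Complex.ofReal_im]
    match x with
    | none => exact Complex.one_im
    | some (i, a) =>
      refine Pool.Agent.R398.AS.tr_im (a := α i u.1) (h.unitary i u.1) (m := a + 1) ?_ _
      fin_cases a <;> simp

theorem summable_rl (h : CuspidalFamily α) (x : Lift m) {σ : ℝ} (hσ : 1 < σ) :
    Summable fun u : Places S × ℕ => rl α x u ^ 2 * WW σ u := by
  refine (h.summable x σ hσ).congr fun u => ?_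
  rw [liftTr_eq h, Complex.norm_real, Real.norm_eq_abs, sq_abs, WW]
  ring

theorem summable_rl2 (h : CuspidalFamily α) (x y : Lift m) {σ : ℝ} (hσ : 1 < σ) :
    Summable fun u : Places S × ℕ => rl α x u * rl α y u * WW σ u := by
  refine Summable.of_norm_bounded (((summable_rl h x hσ).add (summable_rl h y hσ)).mul_left (1 / 2)) fun u => ?_
  rw [Real.norm_eq_abs, abs_mul, abs_of_nonneg (WW_nonneg σ u)]
  have h1 : |rl α x u * rl α y u| ≤ 1 / 2 * (rl α x u ^ 2 + rl α y u ^ 2) := by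
    rw [abs_le]
    constructor <;> nlinarith [sq_nonneg (rl α x u - rl α y u), sq_nonneg (rl α x u + rl α y u)]
  calc |rl α x u * rl α y u| * WW σ u ≤ (1 / 2 * (rl α x u ^ 2 + rl α y u ^ 2)) * WW σ u :=
        mul_le_mul_of_nonneg_right h1 (WW_nonneg σ u)
    _ = _ := by ring

theorem logRS_eq (h : CuspidalFamily α) (x y : Lift m) (σ : ℝ) :
    logRS α x y (σ : ℂ) = ((∑' u : Places S × ℕ, rl α x u * rl α y u * WW σ u : ℝ) : ℂ) := by
  unfold logRS
  rw [Complex.ofReal_tsum]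
  refine tsum_congr fun u => ?_
  rw [liftTr_eq h, liftTr_eq h, WW]
  have e : (((Nm u.1.1 : ℕ) : ℂ) ^ (-(σ : ℂ))) = (((Nm u.1.1 : ℝ) ^ (-σ) : ℝ) : ℂ) := by
    rw [Complex.ofReal_cpow (Nm_pos _).le]
    push_cast
    rfl
  rw [e]
  push_cast
  ring

/-- a function with a simple pole, or neither zero nor pole, on the real axis near `1` -/
theorem log_near {F : ℂ → ℂ} (hF : MeromorphicAt F 1) {δ : Prop} [Decidable δ]
    (ho : meromorphicOrderAt F 1 = (if δ then -1 else 0)) :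
    ∃ C : ℝ, ∀ᶠ σ : ℝ in 𝓝[>] 1, |Real.log ‖F (σ : ℂ)‖ - (if δ then 1 else 0) * Lam σ| ≤ C := by
  set n : ℤ := if δ then -1 else 0 with hn
  have ho' : meromorphicOrderAt F 1 = (n : WithTop ℤ) := by
    rw [ho, hn]
    split_ifs <;> rfl
  obtain ⟨g, hg, hg0, hgF⟩ := (meromorphicOrderAt_eq_int_iff hF).1 ho'
  have hcast : Tendsto (fun σ : ℝ => (σ : ℂ)) (𝓝[>] 1) (𝓝[≠] 1) := by
    rw [tendsto_nhdsWithin_iff]
    constructor
    · have := (Complex.continuous_ofReal.tendsto (1 : ℝ)).mono_left (nhdsWithin_le_nhds (s := Set.Ioi 1))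
      simpa using this
    · filter_upwards [self_mem_nhdsWithin] with σ hσ
      rw [Set.mem_compl_iff, Set.mem_singleton_iff]
      intro hc
      have : σ = 1 := by exact_mod_cast hc
      exact absurd this (ne_of_gt hσ)
  have h1 : Tendsto (fun σ : ℝ => Real.log ‖g (σ : ℂ)‖) (𝓝[>] 1) (𝓝 (Real.log ‖g 1‖)) := by
    refine Tendsto.log ?_ (norm_ne_zero_iff.2 hg0)
    exact (hg.continuousAt.tendsto.norm.mono_left nhdsWithin_le_nhds).comp hcast
  refine ⟨|Real.log ‖g 1‖| + 1, ?_⟩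
  have h2 := hcast.eventually hgF
  have h3 : ∀ᶠ σ : ℝ in 𝓝[>] 1, |Real.log ‖g (σ : ℂ)‖| < |Real.log ‖g 1‖| + 1 :=
    (h1.abs).eventually_lt_const (by linarith)
  have h4 : ∀ᶠ σ : ℝ in 𝓝[>] 1, g (σ : ℂ) ≠ 0 :=
    hcast.eventually ((hg.continuousAt.eventually_ne hg0).filter_mono nhdsWithin_le_nhds)
  filter_upwards [h2, h3, h4, self_mem_nhdsWithin] with σ e1 e2 e3 e4
  have hσ : (1 : ℝ) < σ := e4
  have e5 : ‖(σ : ℂ) - 1‖ = σ - 1 := by
    rw [show (σ : ℂ) - 1 = ((σ - 1 : ℝ) : ℂ) by push_cast; ring, Complex.norm_real, Real.norm_eq_abs,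
      abs_of_pos (by linarith)]
  have e6 : Real.log ‖F (σ : ℂ)‖ - (if δ then 1 else 0) * Lam σ = Real.log ‖g (σ : ℂ)‖ := by
    rw [e1, smul_eq_mul, norm_mul, norm_zpow, e5, Real.log_mul (by
      refine zpow_ne_zero _ ?_
      linarith) (norm_ne_zero_iff.2 e3), Real.log_zpow, Lam, one_div, Real.log_inv, hn]
    split_ifs <;> push_cast <;> ring
  rw [e6]
  exact e2.le

/-- the tail of the zeta function -/
theorem zeta_le {σ : ℝ} (hσ : 1 < σ) :
    ∑' u : Places S × ℕ, WW σ u ≤ ∑' v : Places S, (Nm v.1 : ℝ) ^ (-σ) + ∑' v : Places S, (Nm v.1 : ℝ) ^ (-2 : ℝ) ∧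
    Summable fun u : Places S × ℕ => WW (S := S) σ u := by
  have hq : ∀ v : Places S, 0 < (Nm v.1 : ℝ) ^ (-σ) ∧ (Nm v.1 : ℝ) ^ (-σ) ≤ 1 / 2 ∧
      ((Nm v.1 : ℝ) ^ (-σ)) ^ 2 ≤ (Nm v.1 : ℝ) ^ (-2 : ℝ) := by
    intro v
    have h0 := Nm_pos v.1
    have h2 : (2 : ℝ) ≤ (Nm v.1 : ℝ) := by exact_mod_cast two_le_Nm v.1
    refine ⟨by positivity, ?_, ?_⟩
    · calc (Nm v.1 : ℝ) ^ (-σ) ≤ (Nm v.1 : ℝ) ^ (-1 : ℝ) :=
            Real.rpow_le_rpow_of_exponent_le (by linarith) (by linarith)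
        _ ≤ 1 / 2 := by
            rw [Real.rpow_neg_one, one_div]
            exact inv_anti₀ (by norm_num) h2
    · rw [← Real.rpow_natCast, ← Real.rpow_mul h0.le]
      refine Real.rpow_le_rpow_of_exponent_le (by linarith) ?_
      push_cast
      linarith
  have hfib : ∀ v : Places S, Summable (fun k : ℕ => WW σ (v, k)) ∧
      ∑' k : ℕ, WW σ (v, k) ≤ (Nm v.1 : ℝ) ^ (-σ) + (Nm v.1 : ℝ) ^ (-2 : ℝ) := by
    intro v
    obtain ⟨h1, h2, h3⟩ := hq v
    set q := (Nm v.1 : ℝ) ^ (-σ) with hqd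
    have hg : Summable fun k : ℕ => q ^ k := summable_geometric_of_lt_one h1.le (by linarith)
    have hs : Summable (fun k : ℕ => WW σ (v, k)) := by
      refine Summable.of_nonneg_of_le (fun k => WW_nonneg σ _) (fun k => ?_) (hg.mul_left q)
      unfold WW
      rw [← hqd, pow_succ, mul_comm q]
      refine div_le_self (by positivity) ?_
      have : (0 : ℝ) ≤ ((v, k) : Places S × ℕ).2 := Nat.cast_nonneg _
      linarith
    refine ⟨hs, ?_⟩
    rw [hs.tsum_eq_zero_add]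
    have e0 : WW σ (v, 0) = q := by
      unfold WW
      rw [← hqd]
      simp
    rw [e0]
    have h5 : ∑' k : ℕ, WW σ (v, k + 1) ≤ ∑' k : ℕ, (q ^ 2 / 2) * q ^ k := by
      refine ((summable_nat_add_iff 1).2 hs).tsum_le_tsum (fun k => ?_) (hg.mul_left _)
      unfold WW
      rw [← hqd]
      have e : q ^ (k + 1 + 1) = q ^ 2 * q ^ k := by ring
      simp only
      rw [e, div_mul_eq_mul_div]
      refine div_le_div_of_nonneg_left (by positivity) (by norm_num) ?_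
      push_cast
      have : (0 : ℝ) ≤ (k : ℝ) := Nat.cast_nonneg _
      linarith
    rw [tsum_mul_left, tsum_geometric_of_lt_one h1.le (by linarith)] at h5
    have h6 : (1 - q)⁻¹ ≤ 2 := by
      rw [inv_le_comm₀ (by linarith) (by norm_num)]
      linarith
    have h7 : q ^ 2 / 2 * (1 - q)⁻¹ ≤ q ^ 2 := by
      have : 0 ≤ q ^ 2 := sq_nonneg q
      nlinarith
    linarith
  have hs1 := summable_Nm' (S := S) hσ
  have hs2 := summable_Nm' (S := S) (x := 2) (by norm_num)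
  have hsum : Summable fun u : Places S × ℕ => WW (S := S) σ u := by
    rw [summable_prod_of_nonneg (fun u => WW_nonneg σ u)]
    refine ⟨fun v => (hfib v).1, ?_⟩
    exact Summable.of_nonneg_of_le (fun v => tsum_nonneg fun k => WW_nonneg σ _) (fun v => (hfib v).2) (hs1.add hs2)
  refine ⟨?_, hsum⟩
  rw [hsum.tsum_prod, ← hs1.tsum_add hs2]
  exact (hsum.prod).tsum_le_tsum (fun v => (hfib v).2) (hs1.add hs2)

theorem Lam_le : ∃ C : ℝ, ∀ᶠ σ : ℝ in 𝓝[>] 1, Lam σ ≤ ∑' v : Places S, (Nm v.1 : ℝ) ^ (-σ) + C := by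
  classical
  obtain ⟨C, hC⟩ := Pool.Agent.H921R2.TatePole.prime_sum_bdd (K := K)
  refine ⟨C + S.card, ?_⟩
  filter_upwards [hC, self_mem_nhdsWithin] with σ h1 h2
  have hσ : (1 : ℝ) < σ := h2
  have h3 := (abs_le.1 h1).1
  have e : ∑' v : HeightOneSpectrum (𝓞 K), (Pool.Agent.H921R2.TatePole.nm v : ℝ) ^ (-σ) =
      ∑' v : HeightOneSpectrum (𝓞 K), (Nm v : ℝ) ^ (-σ) := rfl
  rw [e] at h3
  have hs := summable_Nm (K := K) hσ
  have h4 : ∑' v : HeightOneSpectrum (𝓞 K), (Nm v : ℝ) ^ (-σ) =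
      ∑ v ∈ S, (Nm v : ℝ) ^ (-σ) + ∑' v : Places S, (Nm v.1 : ℝ) ^ (-σ) := by
    have := hs.sum_add_tsum_subtype_compl S
    exact this.symm
  have h5 : ∑ v ∈ S, (Nm v : ℝ) ^ (-σ) ≤ S.card := by
    calc ∑ v ∈ S, (Nm v : ℝ) ^ (-σ) ≤ ∑ v ∈ S, (1 : ℝ) := by
          refine Finset.sum_le_sum fun v _ => ?_
          refine Real.rpow_le_one_of_one_le_of_nonpos ?_ (by linarith)
          have : 1 ≤ Nm v := by
            have := two_le_Nm v
            omega
          exact_mod_cast this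
      _ = S.card := by simp
  linarith

/-- the linear combination of the lifts -/
noncomputable def comb (α : Fin m → Places S → Fin 2 → ℂ) (w : Lift m → ℝ) (v : Places S) : ℝ :=
  ∑ x, w x * rl α x (v, 0)

/-- **The second moment.** -/
theorem second_moment (h : CuspidalFamily α) (w : Lift m → ℝ) :
    (∀ σ : ℝ, 1 < σ → Summable fun v : Places S => comb α w v ^ 2 * (Nm v.1 : ℝ) ^ (-σ)) ∧
    ∃ C : ℝ, ∀ σ : ℝ, 1 < σ → ∑' v : Places S, comb α w v ^ 2 * (Nm v.1 : ℝ) ^ (-σ) ≤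
      (∑ x, w x ^ 2) * ∑' v : Places S, (Nm v.1 : ℝ) ^ (-σ) + C := by
  classical
  -- all prime powers
  set f : Places S × ℕ → ℝ := fun u => ∑ x, w x * rl α x u with hf
  have hfe : ∀ (σ : ℝ) (u : Places S × ℕ), f u ^ 2 * WW σ u =
      ∑ x, ∑ y, w x * w y * (rl α x u * rl α y u * WW σ u) := by
    intro σ u
    rw [hf]
    simp only
    rw [sq, Finset.sum_mul_sum, Finset.sum_mul]
    refine Finset.sum_congr rfl fun x _ => ?_
    rw [Finset.sum_mul]
    exact Finset.sum_congr rfl fun y _ => by ring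
  have hfs : ∀ σ : ℝ, 1 < σ → Summable fun u : Places S × ℕ => f u ^ 2 * WW σ u := by
    intro σ hσ
    have h0 : Summable fun u : Places S × ℕ =>
        ∑ x : Lift m, ∑ y : Lift m, w x * w y * (rl α x u * rl α y u * WW σ u) :=
      summable_sum fun x _ => summable_sum fun y _ => (summable_rl2 h x y hσ).mul_left (w x * w y)
    exact h0.congr fun u => (hfe σ u).symm
  have hft : ∀ σ : ℝ, 1 < σ → ∑' u : Places S × ℕ, f u ^ 2 * WW σ u =
      ∑ x, ∑ y, w x * w y * ∑' u, rl α x u * rl α y u * WW σ u := by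
    intro σ hσ
    rw [tsum_congr (hfe σ), Summable.tsum_finsetSum fun x _ => summable_sum fun y _ =>
      (summable_rl2 h x y hσ).mul_left (w x * w y)]
    refine Finset.sum_congr rfl fun x _ => ?_
    rw [Summable.tsum_finsetSum fun y _ => (summable_rl2 h x y hσ).mul_left (w x * w y)]
    refine Finset.sum_congr rfl fun y _ => ?_
    rw [tsum_mul_left]
  have hW0 : ∀ (σ : ℝ) (v : Places S), WW σ (v, 0) = (Nm v.1 : ℝ) ^ (-σ) := by
    intro σ v
    unfold WW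
    simp
  have hinj : Function.Injective fun v : Places S => ((v, 0) : Places S × ℕ) := fun v v' hv => by
    simpa using hv
  have hs1 : ∀ σ : ℝ, 1 < σ → Summable fun v : Places S => comb α w v ^ 2 * (Nm v.1 : ℝ) ^ (-σ) := by
    intro σ hσ
    refine ((hfs σ hσ).comp_injective hinj).congr fun v => ?_
    show f (v, 0) ^ 2 * WW σ (v, 0) = _
    rw [hW0]
    rfl
  have hle : ∀ σ : ℝ, 1 < σ → ∑' v : Places S, comb α w v ^ 2 * (Nm v.1 : ℝ) ^ (-σ) ≤
      ∑' u : Places S × ℕ, f u ^ 2 * WW σ u := by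
    intro σ hσ
    have h1 := tsum_comp_le_tsum_of_inj (hfs σ hσ)
      (fun u => mul_nonneg (sq_nonneg (f u)) (WW_nonneg σ u)) hinj
    refine le_trans (le_of_eq (tsum_congr fun v => ?_)) h1
    show comb α w v ^ 2 * (Nm v.1 : ℝ) ^ (-σ) = f (v, 0) ^ 2 * WW σ (v, 0)
    rw [hW0]
    rfl
  refine ⟨hs1, ?_⟩
  -- the single terms near `1`
  have hxy : ∀ x y : Lift m, ∃ C : ℝ, ∀ᶠ σ : ℝ in 𝓝[>] 1,
      w x * w y * ∑' u, rl α x u * rl α y u * WW σ u ≤
        (if x = y then w x ^ 2 * ∑' v : Places S, (Nm v.1 : ℝ) ^ (-σ) else 0) + C := by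
    intro x y
    by_cases hn : x ≠ none ∨ y ≠ none
    · obtain ⟨F, hF, ho, hexp⟩ := h.rankinSelberg x y hn
      obtain ⟨C, hC⟩ := log_near hF ho
      obtain ⟨C2, hC2⟩ := Lam_le (K := K) (S := S)
      refine ⟨|w x * w y| * |C| + w x ^ 2 * |C2|, ?_⟩
      filter_upwards [hC, hC2, self_mem_nhdsWithin] with σ h1 h2 h3
      have hσ : (1 : ℝ) < σ := h3
      have e1 : Real.log ‖F (σ : ℂ)‖ = ∑' u, rl α x u * rl α y u * WW σ u := by
        rw [hexp (σ : ℂ) (by simpa using hσ), logRS_eq h, Complex.norm_exp, Complex.ofReal_re, Real.log_exp]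
      rw [e1] at h1
      have h4 : w x * w y * (∑' u, rl α x u * rl α y u * WW σ u - (if x = y then 1 else 0) * Lam σ) ≤
          |w x * w y| * |C| := by
        calc _ ≤ |w x * w y * (∑' u, rl α x u * rl α y u * WW σ u - (if x = y then 1 else 0) * Lam σ)| :=
              le_abs_self _
          _ = |w x * w y| * |∑' u, rl α x u * rl α y u * WW σ u - (if x = y then 1 else 0) * Lam σ| := abs_mul _ _
          _ ≤ |w x * w y| * |C| := mul_le_mul_of_nonneg_left (h1.trans (le_abs_self C)) (abs_nonneg _)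
      by_cases hxy : x = y
      · subst hxy
        rw [if_pos rfl, one_mul] at h4
        rw [if_pos rfl]
        have h5 : w x ^ 2 * Lam σ ≤ w x ^ 2 * (∑' v : Places S, (Nm v.1 : ℝ) ^ (-σ) + |C2|) :=
          mul_le_mul_of_nonneg_left (h2.trans (by linarith [le_abs_self C2])) (sq_nonneg _)
        nlinarith
      · rw [if_neg hxy, zero_mul, sub_zero] at h4
        rw [if_neg hxy]
        have : 0 ≤ w x ^ 2 * |C2| := by positivity
        linarith
    · push Not at hn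
      obtain ⟨rfl, rfl⟩ := hn
      refine ⟨w none ^ 2 * ∑' v : Places S, (Nm v.1 : ℝ) ^ (-2 : ℝ), ?_⟩
      filter_upwards [self_mem_nhdsWithin] with σ h3
      have hσ : (1 : ℝ) < σ := h3
      rw [if_pos rfl]
      have e1 : ∑' u, rl α none u * rl α none u * WW σ u = ∑' u : Places S × ℕ, WW σ u := by
        refine tsum_congr fun u => ?_
        have : rl α none u = 1 := Complex.one_re
        rw [this]
        ring
      rw [e1, ← sq, ← mul_add]
      exact mul_le_mul_of_nonneg_left (zeta_le hσ).1 (sq_nonneg _)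
  choose C hC using hxy
  have hev : ∀ᶠ σ : ℝ in 𝓝[>] 1, ∀ x y : Lift m, w x * w y * ∑' u, rl α x u * rl α y u * WW σ u ≤
        (if x = y then w x ^ 2 * ∑' v : Places S, (Nm v.1 : ℝ) ^ (-σ) else 0) + C x y := by
    rw [eventually_all]
    intro x
    rw [eventually_all]
    intro y
    exact hC x y
  have hev2 : ∀ᶠ σ : ℝ in 𝓝[>] 1, ∑' v : Places S, comb α w v ^ 2 * (Nm v.1 : ℝ) ^ (-σ) ≤
      (∑ x, w x ^ 2) * ∑' v : Places S, (Nm v.1 : ℝ) ^ (-σ) + ∑ x, ∑ y, C x y := by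
    filter_upwards [hev, self_mem_nhdsWithin] with σ h1 h2
    have hσ : (1 : ℝ) < σ := h2
    refine (hle σ hσ).trans ?_
    rw [hft σ hσ]
    calc ∑ x, ∑ y, w x * w y * ∑' u, rl α x u * rl α y u * WW σ u
        ≤ ∑ x, ∑ y, ((if x = y then w x ^ 2 * ∑' v : Places S, (Nm v.1 : ℝ) ^ (-σ) else 0) + C x y) :=
          Finset.sum_le_sum fun x _ => Finset.sum_le_sum fun y _ => h1 x y
      _ = _ := by
          simp only [Finset.sum_add_distrib, Finset.sum_ite_eq, Finset.mem_univ, if_true]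
          rw [Finset.sum_mul]
  obtain ⟨σ₀, hσ₀, hI⟩ := mem_nhdsGT_iff_exists_Ioc_subset.1 hev2
  have hσ₀' : (1 : ℝ) < σ₀ := hσ₀
  have hpos : ∀ σ : ℝ, 0 ≤ (∑ x, w x ^ 2) * ∑' v : Places S, (Nm v.1 : ℝ) ^ (-σ) := by
    intro σ
    refine mul_nonneg (Finset.sum_nonneg fun x _ => sq_nonneg _) (tsum_nonneg fun v => ?_)
    have := (Nm_pos v.1).le
    positivity
  refine ⟨|∑ x, ∑ y, C x y| + (∑ x, w x ^ 2) * ∑' v : Places S, (Nm v.1 : ℝ) ^ (-σ₀), fun σ hσ => ?_⟩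
  rcases le_or_gt σ σ₀ with hc | hc
  · have h1 : ∑' v : Places S, comb α w v ^ 2 * (Nm v.1 : ℝ) ^ (-σ) ≤
      (∑ x, w x ^ 2) * ∑' v : Places S, (Nm v.1 : ℝ) ^ (-σ) + ∑ x, ∑ y, C x y := hI ⟨hσ, hc⟩
    have h2 := hpos σ₀
    have h3 := le_abs_self (∑ x, ∑ y, C x y)
    linarith
  · have h1 : ∑' v : Places S, comb α w v ^ 2 * (Nm v.1 : ℝ) ^ (-σ₀) ≤
      (∑ x, w x ^ 2) * ∑' v : Places S, (Nm v.1 : ℝ) ^ (-σ₀) + ∑ x, ∑ y, C x y := hI ⟨hσ₀', le_rfl⟩
    have h2 := hpos σ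
    have h3 := le_abs_self (∑ x, ∑ y, C x y)
    have h4 : ∑' v : Places S, comb α w v ^ 2 * (Nm v.1 : ℝ) ^ (-σ) ≤
        ∑' v : Places S, comb α w v ^ 2 * (Nm v.1 : ℝ) ^ (-σ₀) := by
      refine (hs1 σ hσ).tsum_le_tsum (fun v => ?_) (hs1 σ₀ hσ₀')
      refine mul_le_mul_of_nonneg_left ?_ (sq_nonneg _)
      refine Real.rpow_le_rpow_of_exponent_le ?_ (by linarith)
      have : 1 ≤ Nm v.1 := by
        have := two_le_Nm v.1
        omega
      exact_mod_cast this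
    linarith

end Pool.Agent.R370.RF
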